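import Pool.Agent.H601Z.SkewMain

set_option autoImplicit false

namespace Pool.Agent.Results.MP_981724_an.ANoPlane

open Pool.Agent.H601Z.Skew

/-- Q1, negated form: a real Banach space with a nonzero skew-hermitian operator and without any
subspace isometric to the Euclidean plane. -/
theorem result : ∃ (X : Type) (_ : NormedAddCommGroup X) (_ : NormedSpace ℝ X)
    (_ : CompleteSpace X) (T : X →L[ℝ] X), T ≠ 0 ∧ numRange T = {0} ∧
      ∀ Z : Submodule ℝ X, IsEmpty (EuclideanSpace ℝ (Fin 2) ≃ₗᵢ[ℝ] Z) :=
  ⟨XX, inferInstance, inferInstance, inferInstance, TT, TT_ne, numRange_TT, no_euclid⟩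

end Pool.Agent.Results.MP_981724_an.ANoPlane
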